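import Pool.Agent.TH30.MK.Face

/-!
# The nef cone conjecture passes to the targets of contractions

A `Variety` records what enters part (a) of Q1 for a klt Calabi-Yau pair `(X, Δ)`: `N¹(X)_ℝ` with its
lattice, the action of `Aut X`, the cone `Nef(X)^e`. `Variety.Q1` is part (a) for `X`.

`result`: if `f : X → Z` is a contraction (birational or a fibration) of klt Calabi-Yau pairs, with
`X` and `Z` projective and `ℚ`-factorial, and part (a) of Q1 holds for `X`, then it holds for `Z`.

Proof: let the translates of the rational polyhedral cone spanned by `E` cover `Nef(X)^e`, and let
`F = f^* Nef(Z)^e`, a face of `Nef(X)^e`. For `x` in the relative interior of `F`, `x = a y` with `y`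
in the cone spanned by `E`, `y` lies in the cone spanned by the set `S(a)` of all `e ∈ E` with
`a e ∈ F`. If `S(a) = S(a')` for two such `a`, `a'`, then `a⁻¹ F` and `a'⁻¹ F` are faces each of which
contains a relatively interior point of the other, so they are equal, and `a a'⁻¹` preserves `F`,
that is, it descends to `Z`. As there are finitely many sets `S(a)`, the translates of a rational
polyhedral cone under `Aut Z` cover the ample cone of `Z`; the integral classes span `Nef(Z)^e` by
the face property; and Looijenga's theorem gives a fundamental domain.
-/

set_option autoImplicit false

namespace Pool.Agent.Results.MP_ad47bb_ag.ContractionTargets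

open Pool.Agent.TH30.MK.Pres

/-- Part (a) of the cone conjecture for `X` implies part (a) for the target `Z` of every contraction
`X → Z`. -/
theorem result (X Z : Variety) (pull : Z.N → X.N) (h : IsContr X Z pull) (hX : X.Q1) : Z.Q1 :=
  contraction h hX

end Pool.Agent.Results.MP_ad47bb_ag.ContractionTargets
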