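import Pool.Agent.TH30.MK.Cover

/-!
# The cone conjecture and finite coverings

A `Variety` records what enters part (a) or part (b) of Q1 for a klt Calabi-Yau pair `(X, Δ)`:
`N¹(X)_ℝ` with its lattice, the action of `Aut X` (or `PsAut X`), the cone `Nef(X)^e` (or `Mov(X)^e`).
`Variety.Q1` is the statement of that part for `X`.

`result`: let `Y = X/G` for a finite group `G`.
* Q1 for `X` implies Q1 for `Y` (the kernel of the action on `N¹` may be any algebraic group).
* Conversely, if `X → Y` is étale in codimension one and `G` acts trivially on `N¹(X)`, that is, if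
  `X` and `Y` have the same Picard number, then Q1 for `Y` implies Q1 for `X`.

Proof of the converse: the group of `Y` acts, up to conjugation, on the finitely generated group
`P = π₁(Y_reg)`, which has only finitely many homomorphisms to the finite group `P/H`, where `H` is
the subgroup of the covering; so the elements of the group of `Y` which preserve `H`, and hence lift
to `X`, have finite index; finitely many translates of a rational polyhedral cone for `Y` give one
for `X` whose translates cover, and Looijenga's theorem gives a fundamental domain.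
-/

set_option autoImplicit false

namespace Pool.Agent.Results.MP_ad47bb_ag.EqualPicardNumber

open Pool.Agent.TH30.MK.Pres

/-- Q1 descends along finite quotients, and ascends along finite quasi-étale Galois coverings whose
group acts trivially on `N¹(X)`. -/
theorem result :
    (∀ (X : Variety) (G : Subgroup X.A) [Finite G], KerCond X.act → FinClasses X G) ∧
    (∀ (X : Variety) (G : Subgroup X.A) [Finite G], FinClasses X G →
      ∀ Y : Variety, X.IsQuotient G Y → X.Q1 → Y.Q1) ∧
    ∀ (X : Variety) (G : Subgroup X.A) (Y : Variety) (pull : Y.N → X.N),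
      IsQuot X.act X.Λ X.K G Y.act Y.Λ Y.K pull → (∀ g ∈ G, Triv X.act g) →
      (∀ y ∈ Y.Λ, pull y ∈ X.Λ) →
      ∀ (P : Type) [Group P] (H : Subgroup P) (out : Y.A → P ≃* P),
        Lifting X Y pull P H out → Y.Q1 → X.Q1 := by
  refine ⟨fun X G hfin hK θ => ?_, fun X G hfin hF Y Q h => descent X G hF Y Q h,
    fun X G Y pull Q hG hΛ P _ H out L h => ascent X G Y pull Q hG hΛ P H out L h⟩
  by_cases hθ : ∃ θ' : G → (X.N ≃ₗ[ℝ] X.N), ∀ g x, θ' g x = θ g x
  · obtain ⟨θ', hθ'⟩ := hθ
    have hG : @Finite (G : Subgroup X.toDat.A) := hfin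
    obtain ⟨T, hT, hT'⟩ := @Pool.Agent.TH30.MK.Dat.finiteLifts X.toDat (X.kerCond hK) G hG θ'
    refine ⟨T, hT, fun ψ hψ => ?_⟩
    obtain ⟨ψ', hψ', k, hk, hk'⟩ := hT' ψ (fun g => LinearEquiv.ext
      (fun x => (hψ g x).trans (hθ' g x).symm))
    exact ⟨ψ', hψ', k, (X.triv_iff k).2 hk, hk'⟩
  · refine ⟨∅, Set.finite_empty, fun ψ hψ => ?_⟩
    exact absurd ⟨fun g => X.act (ψ g), fun g x => hψ g x⟩ hθ

end Pool.Agent.Results.MP_ad47bb_ag.EqualPicardNumber
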